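import Pool.Agent.H54.AWG.Main

set_option autoImplicit false

namespace Pool.Agent.Results.MP_3fc7b1_an.AWStarClean

open Pool.Agent.H54.AW

/-- Every AW*-algebra is clean. -/
theorem result (A : Type*) [CStarAlgebra A] (hA : IsAWStar A) : IsClean A :=
  gmain hA

end Pool.Agent.Results.MP_3fc7b1_an.AWStarClean
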